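import Pool.Agent.H7X.CF.Final

namespace Pool.Agent.H7X.CF

variable {V : Type*} {G : SimpleGraph V}

/-- The vertex lies in a `K₄`. -/
def IsK (G : SimpleGraph V) (v : V) : Prop := ∃ x y z, G.Adj v x ∧ G.Adj v y ∧ G.Adj v z ∧
  G.Adj x y ∧ G.Adj x z ∧ G.Adj y z

theorem good_all [Finite V]
    (nb : ∀ v, ∃ x y z, x ≠ y ∧ x ≠ z ∧ y ≠ z ∧ ∀ w, G.Adj v w ↔ w = x ∨ w = y ∨ w = z)
    (claw : ∀ v x y z, G.Adj v x → G.Adj v y → G.Adj v z → x ≠ y → x ≠ z → y ≠ z →
      G.Adj x y ∨ G.Adj x z ∨ G.Adj y z) : ∃ f : V → Fin 4, Good G f := by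
  classical
  have : Fintype V := Fintype.ofFinite V
  have four : ∀ {v a b c d : V}, G.Adj v a → G.Adj v b → G.Adj v c → G.Adj v d →
      a = b ∨ a = c ∨ a = d ∨ b = c ∨ b = d ∨ c = d := by
    intro v a b c d ha hb hc hd
    obtain ⟨x, y, z, -, -, -, h⟩ := nb v
    rw [h] at ha hb hc hd
    grind
  -- closed neighbourhoods in a `K₄`
  have hK : ∀ u v, IsK G u → G.Adj u v → IsK G v ∧ ∀ w, (w = u ∨ G.Adj u w) → (w = v ∨ G.Adj v w) := by
    rintro u v ⟨x, y, z, h1, h2, h3, h4, h5, h6⟩ huv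
    have hN : ∀ w, G.Adj u w → w = x ∨ w = y ∨ w = z := by
      intro w hw
      have := four hw h1 h2 h3
      have := h4.ne
      have := h5.ne
      have := h6.ne
      tauto
    rcases hN v huv with rfl | rfl | rfl
    · refine ⟨⟨u, y, z, h1.symm, h4, h5, h2, h3, h6⟩, ?_⟩
      rintro w (rfl | hw)
      · exact Or.inr h1.symm
      · rcases hN w hw with rfl | rfl | rfl
        · exact Or.inl rfl
        · exact Or.inr h4
        · exact Or.inr h5
    · refine ⟨⟨u, x, z, h2.symm, h4.symm, h6, h1, h3, h5⟩, ?_⟩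
      rintro w (rfl | hw)
      · exact Or.inr h2.symm
      · rcases hN w hw with rfl | rfl | rfl
        · exact Or.inr h4.symm
        · exact Or.inl rfl
        · exact Or.inr h6
    · refine ⟨⟨u, x, y, h3.symm, h5.symm, h6.symm, h1, h2, h4⟩, ?_⟩
      rintro w (rfl | hw)
      · exact Or.inr h3.symm
      · rcases hN w hw with rfl | rfl | rfl
        · exact Or.inr h5.symm
        · exact Or.inr h6.symm
        · exact Or.inl rfl
  have hK1 : ∀ u v, G.Adj u v → IsK G u → IsK G v := fun u v h hu => (hK u v hu h).1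
  have hK2 : ∀ u v, IsK G u → G.Adj u v → ∀ w, (w = u ∨ G.Adj u w) ↔ (w = v ∨ G.Adj v w) :=
    fun u v hu h w => ⟨(hK u v hu h).2 w, (hK v u (hK1 u v h hu) h.symm).2 w⟩
  -- the rank
  let ι : V → ℕ := fun v => (Fintype.equivFin V v).val
  have hι : Function.Injective ι := fun a b h => by
    simpa [ι, Fin.val_inj] using h
  let rk : V → Finset V := fun v => Finset.univ.filter fun u => (u = v ∨ G.Adj v u) ∧ ι u < ι v
  have hrk4 : ∀ v, (rk v).card < 4 := by
    intro v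
    obtain ⟨x, y, z, -, -, -, h⟩ := nb v
    have hsub : rk v ⊆ ({x, y, z} : Finset V) := by
      intro u hu
      simp only [rk, Finset.mem_filter, Finset.mem_univ, true_and] at hu
      rcases hu with ⟨rfl | hu, hlt⟩
      · exact absurd hlt (lt_irrefl _)
      · simpa using (h u).1 hu
    have := (Finset.card_le_card hsub).trans Finset.card_le_three
    omega
  have hrk : ∀ u v, u ≠ v → (∀ w, (w = u ∨ G.Adj u w) ↔ (w = v ∨ G.Adj v w)) →
      (rk u).card ≠ (rk v).card := by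
    have aux : ∀ u v, (∀ w, (w = u ∨ G.Adj u w) ↔ (w = v ∨ G.Adj v w)) → ι u < ι v →
        (rk u).card < (rk v).card := by
      intro u v h hlt
      apply Finset.card_lt_card
      rw [Finset.ssubset_iff_of_subset]
      · refine ⟨u, ?_, ?_⟩
        · simp only [rk, Finset.mem_filter, Finset.mem_univ, true_and]
          exact ⟨(h u).1 (Or.inl rfl), hlt⟩
        · simp [rk]
      · intro w hw
        simp only [rk, Finset.mem_filter, Finset.mem_univ, true_and] at hw ⊢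
        exact ⟨(h w).1 hw.1, hw.2.trans hlt⟩
    intro u v hne h
    rcases lt_trichotomy (ι u) (ι v) with hlt | heq | hlt
    · exact (aux u v h hlt).ne
    · exact absurd (hι heq) hne
    · exact (aux v u (fun w => (h w).symm) hlt).ne'
  -- the rest
  let G' : SimpleGraph {v : V // ¬ IsK G v} := G.comap Subtype.val
  have hG' : CF G' := by
    refine ⟨?_, ?_, ?_⟩
    · rintro ⟨v, hv⟩
      obtain ⟨x, y, z, h1, h2, h3, h⟩ := nb v
      have hx := (h x).2 (by simp)
      have hy := (h y).2 (by simp)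
      have hz := (h z).2 (by simp)
      refine ⟨⟨x, fun hk => hv (hK1 _ _ hx.symm hk)⟩, ⟨y, fun hk => hv (hK1 _ _ hy.symm hk)⟩,
        ⟨z, fun hk => hv (hK1 _ _ hz.symm hk)⟩, ?_, ?_, ?_, ?_⟩
      · simpa using h1
      · simpa using h2
      · simpa using h3
      · rintro ⟨w, hw⟩
        simp only [G', SimpleGraph.comap_adj, Subtype.mk.injEq]
        exact h w
    · rintro ⟨v, hv⟩ ⟨x, hx⟩ ⟨y, hy⟩ ⟨z, hz⟩ h1 h2 h3 h4 h5 h6
      simp only [G', SimpleGraph.comap_adj, ne_eq, Subtype.mk.injEq] at *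
      exact claw v x y z h1 h2 h3 h4 h5 h6
    · rintro ⟨v, hv⟩ ⟨x, hx⟩ ⟨y, hy⟩ ⟨z, hz⟩ h1 h2 h3 h4 h5 h6
      simp only [G', SimpleGraph.comap_adj] at *
      exact hv ⟨x, y, z, h1, h2, h3, h4, h5, h6⟩
  obtain ⟨f', g1, g2, g3, g4⟩ := good_of_CF hG'
  let f : V → Fin 4 := fun v => if h : IsK G v then ⟨(rk v).card, hrk4 v⟩ else f' ⟨v, h⟩
  have fK : ∀ v, IsK G v → (f v).val = (rk v).card := by
    intro v hv
    simp [f, hv]
  have fN : ∀ v (hv : ¬ IsK G v), f v = f' ⟨v, hv⟩ := by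
    intro v hv
    simp [f, hv]
  have hKf : ∀ u v, IsK G u → IsK G v → u ≠ v →
      (∀ w, (w = u ∨ G.Adj u w) ↔ (w = v ∨ G.Adj v w)) → f u ≠ f v := by
    intro u v hu hv hne h he
    apply hrk u v hne h
    rw [← fK u hu, ← fK v hv, he]
  refine ⟨f, ?_, ?_, ?_, ?_⟩
  · intro u v huv
    by_cases hu : IsK G u
    · exact hKf u v hu (hK1 _ _ huv hu) huv.ne (hK2 u v hu huv)
    · have hv : ¬ IsK G v := fun h => hu (hK1 _ _ huv.symm h)
      rw [fN u hu, fN v hv]
      exact g1 _ _ huv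
  · intro u v w huv hvw hne h1 h2
    by_cases hu : IsK G u
    · have hv := hK1 _ _ huv hu
      have hw := hK1 _ _ hvw hv
      exact hKf u w hu hw hne (fun t => (hK2 u v hu huv t).trans (hK2 v w hv hvw t))
        (h1.trans h2.symm)
    · have hv : ¬ IsK G v := fun h => hu (hK1 _ _ huv.symm h)
      have hw : ¬ IsK G w := fun h => hv (hK1 _ _ hvw.symm h)
      rw [fN u hu] at h1
      rw [fN w hw] at h2
      exact g2 ⟨u, hu⟩ ⟨v, hv⟩ ⟨w, hw⟩ huv hvw (by simpa using hne) h1 h2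
  · intro u v w huv hvw hne h1 h2
    by_cases hu : IsK G u
    · have hv := hK1 _ _ huv hu
      have hw := hK1 _ _ hvw hv
      exact hKf u w hu hw hne (fun t => (hK2 u v hu huv t).trans (hK2 v w hv hvw t))
        (h1.trans h2.symm)
    · have hv : ¬ IsK G v := fun h => hu (hK1 _ _ huv.symm h)
      have hw : ¬ IsK G w := fun h => hv (hK1 _ _ hvw.symm h)
      rw [fN u hu] at h1
      rw [fN w hw] at h2
      exact g3 ⟨u, hu⟩ ⟨v, hv⟩ ⟨w, hw⟩ huv hvw (by simpa using hne) h1 h2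
  · intro u v w x huv hvw hwx hne h1 h2
    by_cases hu : IsK G u
    · have hv := hK1 _ _ huv hu
      have hw := hK1 _ _ hvw hv
      have hx := hK1 _ _ hwx hw
      exact hKf u x hu hx hne (fun t => (hK2 u v hu huv t).trans ((hK2 v w hv hvw t).trans
        (hK2 w x hw hwx t))) (h1.trans h2.symm)
    · have hv : ¬ IsK G v := fun h => hu (hK1 _ _ huv.symm h)
      have hw : ¬ IsK G w := fun h => hv (hK1 _ _ hvw.symm h)
      have hx : ¬ IsK G x := fun h => hw (hK1 _ _ hwx.symm h)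
      rw [fN u hu] at h1
      rw [fN x hx] at h2
      exact g4 ⟨u, hu⟩ ⟨v, hv⟩ ⟨w, hw⟩ ⟨x, hx⟩ huv hvw hwx (by simpa using hne) h1 h2

lemma walk_cases {u v : V} (hne : u ≠ v) (p : G.Walk u v) (h : p.length ≤ 3) :
    G.Adj u v ∨ (2 ≤ p.length ∧ ∃ w, G.Adj u w ∧ G.Adj w v) ∨
      (3 ≤ p.length ∧ ∃ w x, G.Adj u w ∧ G.Adj w x ∧ G.Adj x v) := by
  cases p with
  | nil => exact absurd rfl hne
  | cons h1 p =>
    cases p with
    | nil => exact Or.inl h1
    | cons h2 p =>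
      cases p with
      | nil => exact Or.inr (Or.inl ⟨by simp, _, h1, h2⟩)
      | cons h3 p =>
        cases p with
        | nil => exact Or.inr (Or.inr ⟨by simp, _, _, h1, h2, h3⟩)
        | cons h4 p =>
          simp only [SimpleGraph.Walk.length_cons] at h
          omega

lemma edist_cases {u v : V} (hne : u ≠ v) (s : ℕ) (hs : s ≤ 3) (h : ¬ (s : ℕ∞) < G.edist u v) :
    G.Adj u v ∨ (2 ≤ s ∧ ∃ w, G.Adj u w ∧ G.Adj w v) ∨
      (3 ≤ s ∧ ∃ w x, G.Adj u w ∧ G.Adj w x ∧ G.Adj x v) := by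
  rw [not_lt] at h
  have htop : G.edist u v ≠ ⊤ := by
    intro ht
    rw [ht] at h
    exact absurd (top_le_iff.1 h) (ENat.coe_ne_top s)
  obtain ⟨p, hp⟩ := SimpleGraph.exists_walk_of_edist_ne_top htop
  rw [← hp] at h
  have h' : p.length ≤ s := by exact_mod_cast h
  rcases walk_cases hne p (h'.trans hs) with k | ⟨k, w, k1, k2⟩ | ⟨k, w, x, k1, k2, k3⟩
  · exact Or.inl k
  · exact Or.inr (Or.inl ⟨k.trans h', w, k1, k2⟩)
  · exact Or.inr (Or.inr ⟨k.trans h', w, x, k1, k2, k3⟩)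

end Pool.Agent.H7X.CF
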