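import Pool.Agent.H7X.CF.Main

namespace Pool.Agent.H7X.CF

variable {V : Type*} {G : SimpleGraph V}

theorem good_of_CF [Finite V] (hG : CF G) : ∃ f : V → Fin 4, Good G f := by
  classical
  have : Fintype V := Fintype.ofFinite V
  have : Fintype (Quotient (st hG)) := Fintype.ofFinite _
  let U := Quotient (st hG)
  let π : V → U := Quotient.mk (st hG)
  have hπ : ∀ u v, π u = π v ↔ R G u v := fun u v => Quotient.eq (r := st hG)
  have hsur : ∀ N : U, ∃ v, π v = N := fun N => Quotient.exists_rep N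
  have hin : ∀ u v, In G u v → π u = π v := fun u v h => (hπ u v).2 (Or.inr (Or.inl h))
  have hex : ∀ u v, Ex G u v → π u ≠ π v := fun u v h h' => not_R_ex ((hπ u v).1 h') h
  let AU : U → U → Prop := fun N M => ∃ u v, π u = N ∧ π v = M ∧ Ex G u v
  have hAU : ∀ N M, AU N M → AU M N := by
    rintro N M ⟨u, v, h1, h2, h3⟩
    exact ⟨v, u, h2, h1, h3.symm⟩
  let Dm : U → Prop := fun N => ∃ v, π v = N ∧ Mid G v
  -- maximal independent set of diamonds
  obtain ⟨DQ, hDQ1, hDQ2, hDQ3⟩ := exists_maxInd (Finset.univ.filter Dm) AU hAU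
  obtain ⟨UT, hUT1, hUT2, hUT3⟩ :=
    exists_maxInd (Finset.univ.filter fun N => ¬ Dm N ∧ ∀ M ∈ DQ, ¬ AU N M) AU hAU
  have hDQ1' : ∀ N ∈ DQ, Dm N := fun N hN => (Finset.mem_filter.1 (hDQ1 hN)).2
  have hUT1' : ∀ N ∈ UT, ¬ Dm N ∧ ∀ M ∈ DQ, ¬ AU N M :=
    fun N hN => (Finset.mem_filter.1 (hUT1 hN)).2
  have hDQ3' : ∀ N, Dm N → N ∉ DQ → ∃ M ∈ DQ, AU N M :=
    fun N hN h => hDQ3 N (Finset.mem_filter.2 ⟨Finset.mem_univ _, hN⟩) h
  have hUT3' : ∀ N, ¬ Dm N → N ∉ UT → ∃ u w, π u = N ∧ (π w ∈ DQ ∨ π w ∈ UT) ∧ Ex G u w := by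
    intro N hN h
    by_cases h2 : ∀ M ∈ DQ, ¬ AU N M
    · obtain ⟨M, hM, u, w, h3, h4, h5⟩ :=
        hUT3 N (Finset.mem_filter.2 ⟨Finset.mem_univ _, hN, h2⟩) h
      exact ⟨u, w, h3, Or.inr (h4 ▸ hM), h5⟩
    · push Not at h2
      obtain ⟨M, hM, u, w, h3, h4, h5⟩ := h2
      exact ⟨u, w, h3, Or.inl (h4 ▸ hM), h5⟩
  -- the pointers
  obtain ⟨p, hp1, hp2⟩ := hall hG UT (by
    intro N hN v hv hm
    exact (hUT1' N hN).1 ⟨v, hv, hm⟩)
  have hq : ∀ N : U, ∃ u, π u = N ∧ (¬ Dm N → N ∉ UT →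
      ∃ w, (π w ∈ DQ ∨ π w ∈ UT) ∧ Ex G u w) := by
    intro N
    by_cases h : ¬ Dm N ∧ N ∉ UT
    · obtain ⟨u, w, h1, h2, h3⟩ := hUT3' N h.1 h.2
      exact ⟨u, h1, fun _ _ => ⟨w, h2, h3⟩⟩
    · obtain ⟨v, hv⟩ := hsur N
      exact ⟨v, hv, fun h1 h2 => absurd ⟨h1, h2⟩ h⟩
  choose q hq1 hq2 using hq
  -- the middle vertices
  have hbc : ∀ N : U, ∃ b c : V, π b = N ∧ π c = N ∧ (Dm N → Dia G b c) := by
    intro N
    by_cases h : Dm N
    · obtain ⟨v, hv, hm⟩ := h
      obtain ⟨c, a, d, h1, h2, h3, h4, h5, h6, h7, h8, h9, h10, h11, h12⟩ := diamond hG v hm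
      refine ⟨v, c, hv, ?_, fun _ => ⟨hm, h11, h1, a, d, h4, h5, h2, h3, h6, h7, h8, h9, h10, h12⟩⟩
      rw [← hv]
      exact ((hπ v c).2 ((h12 c).2 (by simp))).symm
    · obtain ⟨v, hv⟩ := hsur N
      exact ⟨v, v, hv, hv, fun h' => absurd h' h⟩
  choose b c hb1 hc1 hbc using hbc
  let ptd : U → Prop := fun N => ∃ M w, ¬ Dm M ∧ M ∉ UT ∧ Ex G (q M) w ∧ π w = N
  let isD : V → Prop := fun v => (π v ∈ DQ ∧ v = c (π v)) ∨ (π v ∈ UT ∧ v = p (π v))
  let isC : V → Prop := fun v => (Dm (π v) ∧ (π v ∈ DQ → ¬ ptd (π v)) ∧ v = b (π v)) ∨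
    (¬ Dm (π v) ∧ π v ∉ UT ∧ v = q (π v))
  -- basic facts
  have F1 : ∀ u v, isD u → isD v → π u = π v → u = v := by
    rintro u v (⟨h1, h2⟩ | ⟨h1, h2⟩) (⟨h3, h4⟩ | ⟨h3, h4⟩) h
    · rw [h2, h4, h]
    · exact absurd (hDQ1' _ h1) (h ▸ (hUT1' _ h3).1)
    · exact absurd (hDQ1' _ h3) (h ▸ (hUT1' _ h1).1)
    · rw [h2, h4, h]
  have F1' : ∀ u v, isC u → isC v → π u = π v → u = v := by
    rintro u v (⟨h1, -, h2⟩ | ⟨h1, -, h2⟩) (⟨h3, -, h4⟩ | ⟨h3, -, h4⟩) h
    · rw [h2, h4, h]
    · exact absurd h1 (h ▸ h3)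
    · exact absurd h3 (h ▸ h1)
    · rw [h2, h4, h]
  have F2 : ∀ u v, isD u → isD v → ¬ AU (π u) (π v) := by
    rintro u v hu hv h
    have hne : π u ≠ π v := by
      obtain ⟨x, y, h1, h2, h3⟩ := h
      rw [← h1, ← h2]
      exact hex _ _ h3
    rcases hu with ⟨h1, -⟩ | ⟨h1, -⟩ <;> rcases hv with ⟨h3, -⟩ | ⟨h3, -⟩
    · exact hDQ2 _ h1 _ h3 hne h
    · exact (hUT1' _ h3).2 _ h1 (hAU _ _ h)
    · exact (hUT1' _ h1).2 _ h3 h
    · exact hUT2 _ h1 _ h3 hne h
  have F3 : ∀ u w, isD u → Ex G u w → π u ∈ UT ∧ u = p (π u) := by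
    rintro u w (⟨h1, h2⟩ | h) huw
    · exfalso
      have := (hbc _ (hDQ1' _ h1)).2.1
      rw [← h2] at this
      exact mid_no_ex this huw
    · exact h
  have F4 : ∀ u v w w', isD u → isD v → Ex G u w → Ex G v w' → π w = π w' → u = v := by
    intro u v w w' hu hv h1 h2 h3
    obtain ⟨k1, k2⟩ := F3 u w hu h1
    obtain ⟨k3, k4⟩ := F3 v w' hv h2
    rw [k2] at h1
    rw [k4] at h2
    have := hp2 _ k1 _ k3 w w' h1 h2 h3
    rw [k2, k4, this]
  have F5 : ∀ u w, isC u → Ex G u w → ∀ x, π x = π w → ¬ isC x := by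
    rintro u w (⟨h1, -, h2⟩ | ⟨h1, h2, h3⟩) huw x hx hCx
    · have := (hbc _ h1).1
      rw [← h2] at this
      exact mid_no_ex this huw
    · obtain ⟨w', hw1, hw2⟩ := hq2 _ h1 h2
      rw [← h3] at hw2
      have := ex_unique hG huw hw2
      subst this
      rcases hw1 with hw1 | hw1
      · rcases hCx with ⟨-, k2, -⟩ | ⟨k1, -, -⟩
        · rw [hx] at k2
          apply k2 hw1
          refine ⟨π u, w, h1, h2, ?_, rfl⟩
          rw [← h3]
          exact huw
        · rw [hx] at k1
          exact k1 (hDQ1' _ hw1)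
      · rcases hCx with ⟨k1, -, -⟩ | ⟨-, k2, -⟩
        · rw [hx] at k1
          exact (hUT1' _ hw1).1 k1
        · rw [hx] at k2
          exact k2 hw1
  -- the remainder is bipartite
  have hrem : ∃ g : V → Bool, ∀ x y, ¬ isD x → ¬ isC x → ¬ isD y → ¬ isC y → G.Adj x y →
      g x ≠ g y := by
    let F : Finset V := Finset.univ.filter fun v => ¬ isD v ∧ ¬ isC v
    have hF : ∀ v, v ∈ F ↔ ¬ isD v ∧ ¬ isC v := fun v => by simp [F]
    obtain ⟨g, hg⟩ := two_col_of_core G.Adj (fun x y h => h.symm)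
      (fun x => G.loopless.irrefl x) (fun S => S ⊆ F)
      (fun S v h => (Finset.erase_subset _ _).trans h) (by
        intro S hSF hS
        -- vertices in diamonds are not in `S`
        have c1 : ∀ N ∈ DQ, ∀ v, π v = N → v ∉ S := by
          intro N hN v hv
          have hD := hbc N (hDQ1' N hN)
          have hcS : c N ∉ S := by
            intro h
            apply ((hF _).1 (hSF h)).1
            left
            rw [hc1]
            exact ⟨hN, rfl⟩
          have hRv : R G (b N) v := (hπ _ _).1 (by rw [hb1, hv])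
          by_cases hpt : ptd N
          · obtain ⟨M, w, hM1, hM2, hM3, hM4⟩ := hpt
            have hqS : q M ∉ S := by
              intro h
              apply ((hF _).1 (hSF h)).2
              right
              rw [hq1]
              exact ⟨hM1, hM2, rfl⟩
            have hRw : R G (b N) w := (hπ _ _).1 (by rw [hb1, hM4])
            exact dia_drop hG S hS hD (Or.inr hcS) hRw hM3.symm hqS v hRv
          · have hbS : b N ∉ S := by
              intro h
              apply ((hF _).1 (hSF h)).2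
              left
              rw [hb1]
              exact ⟨hDQ1' N hN, fun _ => hpt, rfl⟩
            exact dia_drop2 S hS hD hbS hcS v hRv
        have c2 : ∀ N, Dm N → ∀ v, π v = N → v ∉ S := by
          intro N hDm v hv
          by_cases hN : N ∈ DQ
          · exact c1 N hN v hv
          · have hD := hbc N hDm
            have hRv : R G (b N) v := (hπ _ _).1 (by rw [hb1, hv])
            obtain ⟨M, hM, x, y, h1, h2, h3⟩ := hDQ3' N hDm hN
            have hbS : b N ∉ S := by
              intro h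
              apply ((hF _).1 (hSF h)).2
              left
              rw [hb1]
              exact ⟨hDm, fun h => absurd h hN, rfl⟩
            have hRx : R G (b N) x := (hπ _ _).1 (by rw [hb1, h1])
            exact dia_drop hG S hS hD (Or.inl hbS) hRx h3 (c1 M hM y h2) v hRv
        have c3 : ∀ v ∈ S, ¬ Dm (π v) := fun v hv h => c2 _ h v rfl hv
        -- two matchings
        obtain ⟨g, hg⟩ := two_matchings S.card S (In G) (Ex G) le_rfl
          (fun _ _ _ _ h => h.symm) (fun _ _ _ _ h => h.symm)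
          (fun x _ h => G.loopless.irrefl x h.1) (fun x _ h => G.loopless.irrefl x h.1)
          (by
            intro x hx y hy z hz hxy hxz
            by_contra hyz
            have hnD := c3 x hx
            obtain ⟨s, t, -, -, -, -, -, -, hR⟩ := triangle hG x (by
              intro w hw hm
              exact hnD ⟨w, ((hπ x w).2 hw).symm, hm⟩)
            -- the vertex of the unit which is hit
            have hhit : ∃ v, π v = π x ∧ v ∉ S := by
              by_cases hU : π x ∈ UT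
              · refine ⟨p (π x), hp1 _ hU, ?_⟩
                intro h
                apply ((hF _).1 (hSF h)).1
                right
                have : π (p (π x)) = π x := hp1 _ hU
                rw [this]
                exact ⟨hU, rfl⟩
              · refine ⟨q (π x), hq1 _, ?_⟩
                intro h
                apply ((hF _).1 (hSF h)).2
                right
                rw [hq1]
                exact ⟨hnD, hU, rfl⟩
            obtain ⟨v, hv1, hv2⟩ := hhit
            have a1 := (hR v).1 ((hπ x v).1 hv1.symm)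
            have a2 := (hR y).1 (Or.inr (Or.inl hxy))
            have a3 := (hR z).1 (Or.inr (Or.inl hxz))
            have a4 := hxy.1.ne
            have a5 := hxz.1.ne
            have b1 : v ≠ x := fun h => hv2 (h ▸ hx)
            have b2 : v ≠ y := fun h => hv2 (h ▸ hy)
            have b3 : v ≠ z := fun h => hv2 (h ▸ hz)
            grind)
          (fun x _ y _ z _ h h' => ex_unique hG h h')
        exact ⟨g, fun x hx y hy h => hg x hx y hy (adj_cases h)⟩) F.card F le_rfl
        (Finset.Subset.refl _)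
    exact ⟨g, fun x y h1 h2 h3 h4 h5 => hg x ((hF x).2 ⟨h1, h2⟩) y ((hF y).2 ⟨h3, h4⟩) h5⟩
  obtain ⟨g, hg⟩ := hrem
  let f : V → Fin 4 := fun v => if isD v then 3 else if isC v then 2 else if g v then 1 else 0
  have f3 : ∀ v, f v = 3 → isD v := by
    intro v hv
    by_contra h
    simp only [f, h, if_false] at hv
    split_ifs at hv <;> simp at hv
  have f2 : ∀ v, f v = 2 → isC v := by
    intro v hv
    by_contra h
    simp only [f, h, if_false] at hv
    split_ifs at hv <;> simp at hv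
  have hAUex : ∀ u v, Ex G u v → AU (π u) (π v) := fun u v h => ⟨u, v, rfl, rfl, h⟩
  have p2 : ∀ u v, G.Adj u v → isC u → isC v → False := by
    intro u v h hu hv
    rcases adj_cases h with h | h
    · exact h.1.ne (F1' u v hu hv (hin _ _ h))
    · exact F5 u v hu h v rfl hv
  have p3 : ∀ u v, G.Adj u v → isD u → isD v → False := by
    intro u v h hu hv
    rcases adj_cases h with h | h
    · exact h.1.ne (F1 u v hu hv (hin _ _ h))
    · exact F2 u v hu hv (hAUex _ _ h)
  have q3 : ∀ u v w, G.Adj u v → G.Adj v w → u ≠ w → isD u → isD w → False := by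
    intro u v w h1 h2 hne hu hw
    rcases adj_cases h1 with h1 | h1 <;> rcases adj_cases h2 with h2 | h2
    · exact hne (F1 u w hu hw ((hin _ _ h1).trans (hin _ _ h2)))
    · apply F2 u w hu hw
      rw [hin _ _ h1]
      exact hAUex _ _ h2
    · apply F2 u w hu hw
      rw [← hin _ _ h2]
      exact hAUex _ _ h1
    · exact hne (ex_unique hG h1.symm h2)
  refine ⟨f, ?_, ?_, ?_, ?_⟩
  · intro u v h he
    by_cases h3 : f u = 3
    · exact p3 u v h (f3 u h3) (f3 v (he ▸ h3))
    by_cases h2 : f u = 2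
    · exact p2 u v h (f2 u h2) (f2 v (he ▸ h2))
    have hv3 : f v ≠ 3 := he ▸ h3
    have hv2 : f v ≠ 2 := he ▸ h2
    have a1 : ¬ isD u := fun h => h3 (by simp [f, h])
    have a2 : ¬ isC u := fun h => h2 (by simp [f, h, a1])
    have a3 : ¬ isD v := fun h => hv3 (by simp [f, h])
    have a4 : ¬ isC v := fun h => hv2 (by simp [f, h, a3])
    have := hg u v a1 a2 a3 a4 h
    simp only [f, a1, a2, a3, a4, if_false] at he
    revert he this
    cases g u <;> cases g v <;> simp
  · intro u v w h1 h2 hne hu hw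
    have hu := f2 u hu
    have hw := f2 w hw
    rcases adj_cases h1 with h1 | h1 <;> rcases adj_cases h2 with h2 | h2
    · exact hne (F1' u w hu hw ((hin _ _ h1).trans (hin _ _ h2)))
    · exact F5 w v hw h2.symm u (hin _ _ h1) hu
    · exact F5 u v hu h1 w (hin _ _ h2).symm hw
    · exact hne (ex_unique hG h1.symm h2)
  · intro u v w h1 h2 hne hu hw
    exact q3 u v w h1 h2 hne (f3 u hu) (f3 w hw)
  · intro u v w x h1 h2 h3 hne hu hx
    have hu := f3 u hu
    have hx := f3 x hx
    rcases adj_cases h1 with k1 | k1 <;> rcases adj_cases h2 with k2 | k2 <;>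
      rcases adj_cases h3 with k3 | k3
    · exact hne (F1 u x hu hx ((hin _ _ k1).trans ((hin _ _ k2).trans (hin _ _ k3))))
    · apply F2 u x hu hx
      rw [hin _ _ k1, hin _ _ k2]
      exact hAUex _ _ k3
    · apply F2 u x hu hx
      rw [hin _ _ k1, ← hin _ _ k3]
      exact hAUex _ _ k2
    · have := ex_unique hG k2.symm k3
      subst this
      exact p3 u v h1 hu hx
    · apply F2 u x hu hx
      rw [← hin _ _ k3, ← hin _ _ k2]
      exact hAUex _ _ k1
    · exact hne (F4 u x v w hu hx k1 k3.symm (hin _ _ k2))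
    · have := ex_unique hG k1.symm k2
      subst this
      exact p3 u x h3 hu hx
    · have := ex_unique hG k1.symm k2
      subst this
      exact p3 u x h3 hu hx

end Pool.Agent.H7X.CF
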