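import Pool.Agent.H7X.CF.Struct

namespace Pool.Agent.H7X.CF

variable {V : Type*} {G : SimpleGraph V}

/-- The setoid of units. -/
def st (hG : CF G) : Setoid V := ⟨R G, ⟨fun _ => Or.inl rfl, R.symm, R_trans hG⟩⟩

/-- The structure of a diamond with middle vertices `v`, `c`. -/
def Dia (G : SimpleGraph V) (v c : V) : Prop :=
  Mid G v ∧ Mid G c ∧ v ≠ c ∧ ∃ a d, c ≠ a ∧ c ≠ d ∧ v ≠ a ∧ v ≠ d ∧ a ≠ d ∧
    (∀ w, G.Adj v w ↔ w = c ∨ w = a ∨ w = d) ∧ (∀ w, G.Adj c w ↔ w = v ∨ w = a ∨ w = d) ∧
    (∃ e, Ex G a e ∧ ∀ w, G.Adj a w ↔ w = v ∨ w = c ∨ w = e) ∧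
    (∃ e, Ex G d e ∧ ∀ w, G.Adj d w ↔ w = v ∨ w = c ∨ w = e) ∧
    (∀ w, R G v w ↔ w = v ∨ w = c ∨ w = a ∨ w = d)

lemma mid_no_ex {v w : V} (h : Mid G v) (h' : Ex G v w) : False :=
  not_in_ex (h w h'.1) h'

/-- If a colour set is closed, a diamond with one bad end has no vertices in it. -/
lemma drop (S : Finset V)
    (hS : ∀ v ∈ S, ∃ x ∈ S, ∃ y ∈ S, x ≠ y ∧ G.Adj v x ∧ G.Adj v y)
    {v x y z : V} (h : ∀ w, G.Adj v w ↔ w = x ∨ w = y ∨ w = z) (hx : x ∉ S) (hy : y ∉ S) :
    v ∉ S := by
  intro hv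
  obtain ⟨p, hp, q, hq, hpq, h1, h2⟩ := hS v hv
  rcases (h p).1 h1 with rfl | rfl | rfl
  · exact hx hp
  · exact hy hp
  · rcases (h q).1 h2 with rfl | rfl | rfl
    · exact hx hq
    · exact hy hq
    · exact hpq rfl

/-- If one of the middle vertices and the outer neighbour of some end are not in the core, then no
vertex of the diamond is. -/
lemma dia_drop (hG : CF G) (S : Finset V)
    (hS : ∀ v ∈ S, ∃ x ∈ S, ∃ y ∈ S, x ≠ y ∧ G.Adj v x ∧ G.Adj v y)
    {b c : V} (h : Dia G b c) (hb : b ∉ S ∨ c ∉ S) {x y : V} (hx : R G b x) (hxy : Ex G x y)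
    (hy : y ∉ S) : ∀ w, R G b w → w ∉ S := by
  obtain ⟨mb, mc, -, a, d, hca, hcd, hva, hvd, had, hN, hNc, ⟨e, he, hNa⟩, ⟨e', he', hNd⟩, hR⟩ := h
  -- the symmetric formulation
  have main : ∀ a d e e', (∀ w, G.Adj b w ↔ w = c ∨ w = a ∨ w = d) →
      (∀ w, G.Adj c w ↔ w = b ∨ w = a ∨ w = d) → Ex G a e →
      (∀ w, G.Adj a w ↔ w = b ∨ w = c ∨ w = e) → (∀ w, G.Adj d w ↔ w = b ∨ w = c ∨ w = e') →
      x = a → b ∉ S ∧ c ∉ S ∧ a ∉ S ∧ d ∉ S := by
    intro a d e e' hN hNc he hNa hNd hxa
    subst hxa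
    have : e = y := ex_unique hG he hxy
    subst this
    have ha : x ∉ S := by
      rcases hb with hb | hb
      · exact drop S hS (x := b) (y := e) (z := c) (fun w => by rw [hNa w]; tauto) hb hy
      · exact drop S hS (x := c) (y := e) (z := b) (fun w => by rw [hNa w]; tauto) hb hy
    have hbc : b ∉ S ∧ c ∉ S := by
      rcases hb with hb | hb
      · exact ⟨hb, drop S hS (x := b) (y := x) (z := d) (fun w => by rw [hNc w]) hb ha⟩
      · exact ⟨drop S hS (x := c) (y := x) (z := d) (fun w => by rw [hN w]) hb ha, hb⟩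
    exact ⟨hbc.1, hbc.2, ha, drop S hS hNd hbc.1 hbc.2⟩
  have key : b ∉ S ∧ c ∉ S ∧ a ∉ S ∧ d ∉ S := by
    rcases (hR x).1 hx with rfl | rfl | rfl | rfl
    · exact absurd hxy (fun h => mid_no_ex mb h)
    · exact absurd hxy (fun h => mid_no_ex mc h)
    · exact main x d e e' hN hNc he hNa hNd rfl
    · have := main x a e' e (fun w => by rw [hN w]; tauto) (fun w => by rw [hNc w]; tauto)
        he' hNd hNa rfl
      tauto
  intro w hw
  rcases (hR w).1 hw with rfl | rfl | rfl | rfl
  · exact key.1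
  · exact key.2.1
  · exact key.2.2.1
  · exact key.2.2.2

/-- If both middle vertices are not in the core then no vertex of the diamond is. -/
lemma dia_drop2 (S : Finset V)
    (hS : ∀ v ∈ S, ∃ x ∈ S, ∃ y ∈ S, x ≠ y ∧ G.Adj v x ∧ G.Adj v y)
    {b c : V} (h : Dia G b c) (hb : b ∉ S) (hc : c ∉ S) : ∀ w, R G b w → w ∉ S := by
  obtain ⟨mb, mc, -, a, d, hca, hcd, hva, hvd, had, hN, hNc, ⟨e, he, hNa⟩, ⟨e', he', hNd⟩, hR⟩ := h
  intro w hw
  rcases (hR w).1 hw with rfl | rfl | rfl | rfl
  · exact hb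
  · exact hc
  · exact drop S hS hNa hb hc
  · exact drop S hS hNd hb hc

/-- The conditions on a colouring with colours `0,1` (independent), `2` (2-packing),
`3` (3-packing). -/
def Good (G : SimpleGraph V) (f : V → Fin 4) : Prop :=
  (∀ u v, G.Adj u v → f u ≠ f v) ∧
  (∀ u v w, G.Adj u v → G.Adj v w → u ≠ w → f u = 2 → f w = 2 → False) ∧
  (∀ u v w, G.Adj u v → G.Adj v w → u ≠ w → f u = 3 → f w = 3 → False) ∧
  (∀ u v w x, G.Adj u v → G.Adj v w → G.Adj w x → u ≠ x → f u = 3 → f x = 3 → False)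

/-- The injection of Hall's theorem. -/
lemma hall [Finite V] (hG : CF G) (T : Finset (Quotient (st hG)))
    (hT : ∀ N ∈ T, ∀ v, Quotient.mk (st hG) v = N → ¬ Mid G v) :
    ∃ p : Quotient (st hG) → V, (∀ N ∈ T, Quotient.mk (st hG) (p N) = N) ∧
      ∀ N ∈ T, ∀ M ∈ T, ∀ w w', Ex G (p N) w → Ex G (p M) w' →
        Quotient.mk (st hG) w = Quotient.mk (st hG) w' → N = M := by
  classical
  have : Fintype V := Fintype.ofFinite V
  have : Fintype (Quotient (st hG)) := Fintype.ofFinite _
  let π : V → Quotient (st hG) := Quotient.mk (st hG)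
  have hπ : ∀ u v, π u = π v ↔ R G u v := fun u v => Quotient.eq (r := st hG)
  have hsur : ∀ N, ∃ v, π v = N := fun N => Quotient.exists_rep N
  -- external neighbour
  have hext : ∀ v, ¬ Mid G v → ∃ e, Ex G v e := by
    intro v hv
    obtain ⟨x, y, e, -, -, -, -, h, -⟩ := nonmid hG v hv
    exact ⟨e, h⟩
  let t : T → Finset (Quotient (st hG)) := fun N =>
    Finset.univ.filter fun M => ∃ u w, π u = N.1 ∧ π w = M ∧ Ex G u w
  have hhall : ∀ s : Finset T, s.card ≤ (s.biUnion t).card := by
    intro s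
    let P : Finset V := Finset.univ.filter fun v => ∃ N ∈ s, π v = N.1
    let Q : Finset V := Finset.univ.filter fun v => ¬ Mid G v ∧ π v ∈ s.biUnion t
    have h1 : 3 * s.card ≤ P.card := by
      have hmaps : ∀ a ∈ P, π a ∈ s.map (Function.Embedding.subtype _) := by
        intro a ha
        simp only [P, Finset.mem_filter, Finset.mem_univ, true_and] at ha
        obtain ⟨N, hN, hN'⟩ := ha
        rw [Finset.mem_map]
        exact ⟨N, hN, hN'.symm⟩
      have := Finset.mul_card_image_le_card_of_maps_to hmaps 3 ?_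
      · rwa [Finset.card_map] at this
      · intro N hN
        rw [Finset.mem_map] at hN
        obtain ⟨N', hN', rfl⟩ := hN
        obtain ⟨v, hv⟩ := hsur N'.1
        obtain ⟨x, y, e1, e2, e3, -, -, -, hR⟩ := triangle hG v (by
          intro w hw
          exact hT N'.1 N'.2 w (by rw [← hv]; exact ((hπ v w).2 hw).symm))
        have hsub : ({v, x, y} : Finset V) ⊆ P.filter fun a => π a = (Function.Embedding.subtype _) N' := by
          intro a ha
          have ha' : R G v a := (hR a).2 (by simpa using ha)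
          have ha'' : π a = N'.1 := by rw [← hv]; exact ((hπ v a).2 ha').symm
          simp only [P, Finset.mem_filter, Finset.mem_univ, true_and]
          exact ⟨⟨N', hN', ha''⟩, ha''⟩
        have hc := Finset.card_le_card hsub
        rw [Finset.card_eq_three.2 ⟨v, x, y, e1, e2, e3, rfl⟩] at hc
        exact hc
    have h2 : Q.card ≤ 3 * (s.biUnion t).card := by
      have hmaps : ∀ a ∈ Q, π a ∈ s.biUnion t := by
        intro a ha
        simp only [Q, Finset.mem_filter, Finset.mem_univ, true_and] at ha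
        exact ha.2
      refine Finset.card_le_mul_card_image_of_maps_to hmaps 3 ?_
      intro M _
      by_cases hM : ∃ v, π v = M ∧ Mid G v
      · obtain ⟨v, hv, hm⟩ := hM
        obtain ⟨c, a, d, -, -, -, -, -, -, -, -, -, -, hmc, hR⟩ := diamond hG v hm
        have hsub : (Q.filter fun x => π x = M) ⊆ ({a, d} : Finset V) := by
          intro x hx
          simp only [Q, Finset.mem_filter, Finset.mem_univ, true_and] at hx
          have : R G v x := (hπ v x).1 (by rw [hv, hx.2])
          rcases (hR x).1 this with rfl | rfl | rfl | rfl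
          · exact absurd hm hx.1.1
          · exact absurd hmc hx.1.1
          · simp
          · simp
        have hc := (Finset.card_le_card hsub).trans Finset.card_le_two
        omega
      · push Not at hM
        obtain ⟨v, hv⟩ := hsur M
        obtain ⟨x, y, e1, e2, e3, -, -, -, hR⟩ := triangle hG v (by
          intro w hw
          exact hM w (by rw [← hv]; exact ((hπ v w).2 hw).symm))
        have hsub : (Q.filter fun x => π x = M) ⊆ ({v, x, y} : Finset V) := by
          intro z hz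
          simp only [Q, Finset.mem_filter, Finset.mem_univ, true_and] at hz
          have : R G v z := (hπ v z).1 (by rw [hv, hz.2])
          simpa using (hR z).1 this
        exact (Finset.card_le_card hsub).trans Finset.card_le_three
    have h3 : P.card ≤ Q.card := by
      have hP : ∀ v ∈ P, ¬ Mid G v := by
        intro v hv
        simp only [P, Finset.mem_filter, Finset.mem_univ, true_and] at hv
        obtain ⟨N, _, hN⟩ := hv
        exact hT N.1 N.2 v hN
      choose! e he using fun v (hv : ¬ Mid G v) => hext v hv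
      refine Finset.card_le_card_of_injOn e ?_ ?_
      · intro v hv
        have hv' := he v (hP v hv)
        have hv2 := hv
        simp only [P, Finset.coe_filter, Finset.mem_univ, true_and, Set.mem_setOf_eq] at hv2
        obtain ⟨N, hNs, hN⟩ := hv2
        simp only [Q, Finset.coe_filter, Finset.mem_univ, true_and, Set.mem_setOf_eq,
          Finset.mem_biUnion]
        refine ⟨fun hm => mid_no_ex hm hv'.symm, N, hNs, ?_⟩
        simp only [t, Finset.mem_filter, Finset.mem_univ, true_and]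
        exact ⟨v, e v, hN, rfl, hv'⟩
      · intro v hv v' hv' h
        have k1 := he v (hP v hv)
        have k2 := he v' (hP v' hv')
        rw [← h] at k2
        exact ex_unique hG k1.symm k2.symm
    omega
  obtain ⟨φ, hφ1, hφ2⟩ := (Finset.all_card_le_biUnion_card_iff_exists_injective t).1 hhall
  have hφ3 : ∀ N : T, ∃ u, π u = N.1 ∧ ∃ w, π w = φ N ∧ Ex G u w := by
    intro N
    have := hφ2 N
    simp only [t, Finset.mem_filter, Finset.mem_univ, true_and] at this
    obtain ⟨u, w, h1, h2, h3⟩ := this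
    exact ⟨u, h1, w, h2, h3⟩
  choose p hp1 hp2 using hφ3
  have hV : Nonempty V ∨ T = ∅ := by
    rcases isEmpty_or_nonempty V with h | h
    · right
      by_contra hne
      obtain ⟨N, hN⟩ := Finset.nonempty_iff_ne_empty.2 hne
      obtain ⟨v, -⟩ := hsur N
      exact h.elim v
    · exact Or.inl h
  rcases hV with hV | hV
  · obtain ⟨v₀⟩ := hV
    refine ⟨fun N => if h : N ∈ T then p ⟨N, h⟩ else v₀, ?_, ?_⟩
    · intro N hN
      simp only [hN, dif_pos]
      exact hp1 ⟨N, hN⟩
    · intro N hN M hM w w' h1 h2 h3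
      simp only [hN, hM, dif_pos] at h1 h2
      obtain ⟨x, hx1, hx2⟩ := hp2 ⟨N, hN⟩
      obtain ⟨y, hy1, hy2⟩ := hp2 ⟨M, hM⟩
      have e1 := ex_unique hG h1 hx2
      have e2 := ex_unique hG h2 hy2
      subst e1 e2
      have : φ ⟨N, hN⟩ = φ ⟨M, hM⟩ := by
        rw [← hx1, ← hy1]
        exact h3
      have := hφ1 this
      exact congrArg Subtype.val this
  · subst hV
    refine ⟨fun N => (hsur N).choose, by simp, by simp⟩

end Pool.Agent.H7X.CF
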