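import Pool.Agent.H7X.CF.Two

namespace Pool.Agent.H7X.CF

variable {V : Type*} (G : SimpleGraph V)

/-- Inner edges: edges in a triangle. -/
def In (u v : V) : Prop := G.Adj u v ∧ ∃ w, G.Adj u w ∧ G.Adj v w

/-- External edges: edges in no triangle. -/
def Ex (u v : V) : Prop := G.Adj u v ∧ ∀ w, G.Adj u w → ¬ G.Adj v w

/-- All edges at the vertex are inner. -/
def Mid (v : V) : Prop := ∀ x, G.Adj v x → In G v x

/-- Same unit. -/
def R (u v : V) : Prop := u = v ∨ In G u v ∨ ∃ w, In G u w ∧ In G w v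

/-- Cubic, claw-free, without `K₄`. -/
structure CF : Prop where
  nb : ∀ v, ∃ x y z, x ≠ y ∧ x ≠ z ∧ y ≠ z ∧ ∀ w, G.Adj v w ↔ w = x ∨ w = y ∨ w = z
  claw : ∀ v x y z, G.Adj v x → G.Adj v y → G.Adj v z → x ≠ y → x ≠ z → y ≠ z →
    G.Adj x y ∨ G.Adj x z ∨ G.Adj y z
  noK : ∀ v x y z, G.Adj v x → G.Adj v y → G.Adj v z → G.Adj x y → G.Adj x z → G.Adj y z → False

variable {G}

lemma In.symm {u v : V} (h : In G u v) : In G v u := by
  obtain ⟨h1, w, h2, h3⟩ := h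
  exact ⟨h1.symm, w, h3, h2⟩

lemma Ex.symm {u v : V} (h : Ex G u v) : Ex G v u :=
  ⟨h.1.symm, fun w h1 h2 => h.2 w h2 h1⟩

lemma adj_cases {u v : V} (h : G.Adj u v) : In G u v ∨ Ex G u v := by
  by_cases h1 : ∃ w, G.Adj u w ∧ G.Adj v w
  · exact Or.inl ⟨h, h1⟩
  · refine Or.inr ⟨h, fun w h2 h3 => h1 ⟨w, h2, h3⟩⟩

lemma not_in_ex {u v : V} (h : In G u v) (h' : Ex G u v) : False := by
  obtain ⟨_, w, h2, h3⟩ := h
  exact h'.2 w h2 h3

lemma R.symm {u v : V} (h : R G u v) : R G v u := by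
  rcases h with h | h | ⟨w, h1, h2⟩
  · exact Or.inl h.symm
  · exact Or.inr (Or.inl h.symm)
  · exact Or.inr (Or.inr ⟨w, h2.symm, h1.symm⟩)

lemma not_R_ex {u v : V} (h : R G u v) (h' : Ex G u v) : False := by
  rcases h with h | h | ⟨w, h1, h2⟩
  · subst h
    exact G.loopless.irrefl _ h'.1
  · exact not_in_ex h h'
  · exact h'.2 w h1.1 h2.1.symm

variable (hG : CF G)
include hG

lemma tri (v : V) : ∃ x y z, x ≠ y ∧ x ≠ z ∧ y ≠ z ∧ G.Adj x y ∧
    ∀ w, G.Adj v w ↔ w = x ∨ w = y ∨ w = z := by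
  obtain ⟨x, y, z, h1, h2, h3, h⟩ := hG.nb v
  rcases hG.claw v x y z ((h x).2 (by simp)) ((h y).2 (by simp)) ((h z).2 (by simp)) h1 h2 h3
    with h4 | h4 | h4
  · exact ⟨x, y, z, h1, h2, h3, h4, h⟩
  · exact ⟨x, z, y, h2, h1, h3.symm, h4, fun w => by rw [h w]; tauto⟩
  · exact ⟨y, z, x, h3, h1.symm, h2.symm, h4, fun w => by rw [h w]; tauto⟩

/-- four neighbours cannot be distinct -/
lemma four {v a b c d : V} (ha : G.Adj v a) (hb : G.Adj v b) (hc : G.Adj v c) (hd : G.Adj v d) :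
    a = b ∨ a = c ∨ a = d ∨ b = c ∨ b = d ∨ c = d := by
  obtain ⟨x, y, z, -, -, -, h⟩ := hG.nb v
  rw [h] at ha hb hc hd
  grind

lemma ex_unique {v x y : V} (hx : Ex G v x) (hy : Ex G v y) : x = y := by
  by_contra hne
  obtain ⟨p, q, r, h1, h2, h3, h4, h⟩ := tri hG v
  have hp := (h p).2 (by simp)
  have hq := (h q).2 (by simp)
  have hr := (h r).2 (by simp)
  have hxp : x ≠ p := fun e => hx.2 q hq (e ▸ h4)
  have hxq : x ≠ q := fun e => hx.2 p hp (e ▸ h4.symm)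
  have hyp : y ≠ p := fun e => hy.2 q hq (e ▸ h4)
  have hyq : y ≠ q := fun e => hy.2 p hp (e ▸ h4.symm)
  have hx' := (h x).1 hx.1
  have hy' := (h y).1 hy.1
  grind

lemma R_step {u w v x : V} (h1 : In G u w) (h2 : In G w v) (h3 : In G v x) : R G u x := by
  by_contra hR
  have hux : u ≠ x := fun e => hR (Or.inl e)
  have hux' : ¬ In G u x := fun e => hR (Or.inr (Or.inl e))
  have hno : ∀ t, In G u t → ¬ In G t x := fun t ht ht' => hR (Or.inr (Or.inr ⟨t, ht, ht'⟩))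
  have huv : u ≠ v := by
    rintro rfl
    exact hux' h3
  have hwx : w ≠ x := by
    rintro rfl
    exact hux' h1
  have huv' : ¬ G.Adj u v := by
    intro h
    exact hno v ⟨h, w, h1.1, h2.1.symm⟩ h3
  have hwx' : ¬ G.Adj w x := by
    intro h
    exact hno w h1 ⟨h, v, h2.1, h3.1.symm⟩
  have huw := h1.1
  have hwv := h2.1
  have hvx := h3.1
  obtain ⟨-, p, hwp, hvp⟩ := h2
  obtain ⟨-, q, huq, hwq⟩ := h1
  obtain ⟨-, r, hvr, hxr⟩ := h3
  have hpu : p ≠ u := by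
    rintro rfl
    exact huv' hvp.symm
  have hpx : p ≠ x := by
    rintro rfl
    exact hwx' hwp
  have e1 : p = q := by
    have := four hG hwp hwq huw.symm hwv
    have hqu : q ≠ u := by
      rintro rfl
      exact G.loopless.irrefl _ huq
    have hqv : q ≠ v := by
      rintro rfl
      exact huv' huq
    have hpv : p ≠ v := by
      rintro rfl
      exact G.loopless.irrefl _ hvp
    tauto
  have e2 : p = r := by
    have := four hG hvp hvr hwv.symm hvx
    have hqu : r ≠ x := by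
      rintro rfl
      exact G.loopless.irrefl _ hxr
    have hqv : r ≠ w := by
      rintro rfl
      exact hwx' hxr.symm
    have hpw : p ≠ w := by
      rintro rfl
      exact G.loopless.irrefl _ hwp
    tauto
  subst e1
  subst e2
  exact hno p ⟨huq, w, huw, hwq.symm⟩ ⟨hxr.symm, v, hvr.symm, hvx.symm⟩

lemma R_step' {u v x : V} (h : R G u v) (h3 : In G v x) : R G u x := by
  rcases h with rfl | h | ⟨w, h1, h2⟩
  · exact Or.inr (Or.inl h3)
  · exact Or.inr (Or.inr ⟨v, h, h3⟩)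
  · exact R_step hG h1 h2 h3

lemma R_trans {u v x : V} (h : R G u v) (h' : R G v x) : R G u x := by
  rcases h' with rfl | h' | ⟨w, h1, h2⟩
  · exact h
  · exact R_step' hG h h'
  · exact R_step' hG (R_step' hG h h1) h2

lemma diamond (v : V) (hv : Mid G v) : ∃ c a d, v ≠ c ∧ v ≠ a ∧ v ≠ d ∧ c ≠ a ∧ c ≠ d ∧ a ≠ d ∧
    (∀ w, G.Adj v w ↔ w = c ∨ w = a ∨ w = d) ∧ (∀ w, G.Adj c w ↔ w = v ∨ w = a ∨ w = d) ∧
    (∃ e, Ex G a e ∧ ∀ w, G.Adj a w ↔ w = v ∨ w = c ∨ w = e) ∧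
    (∃ e, Ex G d e ∧ ∀ w, G.Adj d w ↔ w = v ∨ w = c ∨ w = e) ∧ Mid G c ∧
    (∀ w, R G v w ↔ w = v ∨ w = c ∨ w = a ∨ w = d) := by
  -- first find the twin
  have h0 : ∃ c a d, c ≠ a ∧ c ≠ d ∧ a ≠ d ∧ (∀ w, G.Adj v w ↔ w = c ∨ w = a ∨ w = d) ∧
      G.Adj c a ∧ G.Adj c d := by
    obtain ⟨x, y, z, h1, h2, h3, h4, h⟩ := tri hG v
    have hz := (h z).2 (by simp)
    obtain ⟨-, w, hw1, hw2⟩ := hv z hz
    rcases (h w).1 hw1 with rfl | rfl | rfl
    · exact ⟨w, y, z, h1, h2, h3, h, h4, hw2.symm⟩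
    · exact ⟨w, x, z, h1.symm, h3, h2, fun t => by rw [h t]; tauto, h4.symm, hw2.symm⟩
    · exact absurd hw2 (G.loopless.irrefl _)
  obtain ⟨c, a, d, hca, hcd, had, hN, h1, h2⟩ := h0
  have hvc := (hN c).2 (by simp)
  have hva := (hN a).2 (by simp)
  have hvd := (hN d).2 (by simp)
  have hnad : ¬ G.Adj a d := fun h => hG.noK v c a d hvc hva hvd h1 h2 h
  have hNc : ∀ w, G.Adj c w ↔ w = v ∨ w = a ∨ w = d := by
    intro w
    constructor
    · intro h
      have := four hG h hvc.symm h1 h2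
      have e1 := hva.ne
      have e2 := hvd.ne
      tauto
    · rintro (rfl | rfl | rfl)
      · exact hvc.symm
      · exact h1
      · exact h2
  have hend : ∀ a d, c ≠ a → c ≠ d → a ≠ d → G.Adj v a → G.Adj c a → ¬ G.Adj a d →
      (∀ w, G.Adj v w ↔ w = c ∨ w = a ∨ w = d) → (∀ w, G.Adj c w ↔ w = v ∨ w = a ∨ w = d) →
      ∃ e, Ex G a e ∧ ∀ w, G.Adj a w ↔ w = v ∨ w = c ∨ w = e := by
    intro a d hca hcd had hva hca' hnad hN hNc
    obtain ⟨x, y, z, k1, k2, k3, k⟩ := hG.nb a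
    have hav := (k v).1 hva.symm
    have hac := (k c).1 hca'.symm
    have hvc' := hvc.ne
    have : ∃ e, e ≠ v ∧ e ≠ c ∧ ∀ w, G.Adj a w ↔ w = v ∨ w = c ∨ w = e := by
      rcases hav with rfl | rfl | rfl <;> rcases hac with rfl | rfl | rfl
      · exact absurd rfl hvc'
      · exact ⟨z, k2.symm, k3.symm, k⟩
      · exact ⟨y, k1.symm, k3, fun w => by rw [k w]; tauto⟩
      · exact ⟨z, k3.symm, k2.symm, fun w => by rw [k w]; tauto⟩
      · exact absurd rfl hvc'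
      · exact ⟨x, k1, k2, fun w => by rw [k w]; tauto⟩
      · exact ⟨y, k3, k1.symm, fun w => by rw [k w]; tauto⟩
      · exact ⟨x, k2, k1, fun w => by rw [k w]; tauto⟩
      · exact absurd rfl hvc'
    obtain ⟨e, he1, he2, he⟩ := this
    have hae : G.Adj a e := (he e).2 (by simp)
    refine ⟨e, ⟨hae, ?_⟩, he⟩
    intro w hw hew
    have had' : e ≠ d := by
      rintro rfl
      exact hnad hae
    have hae' := hae.ne
    rcases (he w).1 hw with rfl | rfl | rfl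
    · have := (hN e).1 hew.symm
      tauto
    · have := (hNc e).1 hew.symm
      tauto
    · exact G.loopless.irrefl _ hew
  have hmc : Mid G c := by
    intro x hx
    refine ⟨hx, ?_⟩
    rcases (hNc x).1 hx with rfl | rfl | rfl
    · exact ⟨a, h1, hva⟩
    · exact ⟨v, hvc.symm, hva.symm⟩
    · exact ⟨v, hvc.symm, hvd.symm⟩
  have hEa := hend a d hca hcd had hva h1 hnad hN hNc
  have hEd := hend d a hcd hca had.symm hvd h2 (fun h => hnad h.symm)
    (fun w => by rw [hN w]; tauto) (fun w => by rw [hNc w]; tauto)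
  refine ⟨c, a, d, hvc.ne, hva.ne, hvd.ne, hca, hcd, had, hN, hNc, hEa, hEd, hmc, ?_⟩
  intro w
  constructor
  · rintro (rfl | h | ⟨t, ht, h⟩)
    · simp
    · have := (hN w).1 h.1
      tauto
    · rcases (hN t).1 ht.1 with rfl | rfl | rfl
      · have := (hNc w).1 h.1
        tauto
      · obtain ⟨e, he, hNe⟩ := hEa
        rcases (hNe w).1 h.1 with rfl | rfl | rfl
        · simp
        · simp
        · exact absurd he (fun he => not_in_ex h he)
      · obtain ⟨e, he, hNe⟩ := hEd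
        rcases (hNe w).1 h.1 with rfl | rfl | rfl
        · simp
        · simp
        · exact absurd he (fun he => not_in_ex h he)
  · rintro (rfl | rfl | rfl | rfl)
    · exact Or.inl rfl
    · exact Or.inr (Or.inl (hv _ hvc))
    · exact Or.inr (Or.inl (hv _ hva))
    · exact Or.inr (Or.inl (hv _ hvd))

lemma nonmid (v : V) (hv : ¬ Mid G v) : ∃ x y e, x ≠ y ∧ x ≠ e ∧ y ≠ e ∧ G.Adj x y ∧ Ex G v e ∧
    In G v x ∧ In G v y ∧ ∀ w, G.Adj v w ↔ w = x ∨ w = y ∨ w = e := by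
  obtain ⟨x, y, z, h1, h2, h3, h4, h⟩ := tri hG v
  have hx := (h x).2 (by simp)
  have hy := (h y).2 (by simp)
  have hix : In G v x := ⟨hx, y, hy, h4⟩
  have hiy : In G v y := ⟨hy, x, hx, h4.symm⟩
  refine ⟨x, y, z, h1, h2, h3, h4, ?_, hix, hiy, h⟩
  rcases adj_cases ((h z).2 (by simp)) with hz | hz
  · exfalso
    apply hv
    intro t ht
    rcases (h t).1 ht with rfl | rfl | rfl
    · exact hix
    · exact hiy
    · exact hz
  · exact hz

lemma triangle (v : V) (hv : ∀ w, R G v w → ¬ Mid G w) : ∃ x y, v ≠ x ∧ v ≠ y ∧ x ≠ y ∧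
    G.Adj v x ∧ G.Adj v y ∧ G.Adj x y ∧ (∀ w, R G v w ↔ w = v ∨ w = x ∨ w = y) := by
  obtain ⟨x, y, e, h1, h2, h3, h4, h5, h6, h7, h⟩ := nonmid hG v (hv v (Or.inl rfl))
  refine ⟨x, y, h6.1.ne, h7.1.ne, h1, h6.1, h7.1, h4, ?_⟩
  have aux : ∀ x y, x ≠ y → G.Adj x y → In G v x → In G v y → ∀ w, In G x w → w = v ∨ w = y := by
    intro x y hxy hadj hx hy w hw
    obtain ⟨x', y', e', k1, k2, k3, k4, k5, k6, k7, k⟩ :=
      nonmid hG x (hv x (Or.inr (Or.inl hx)))
    have hwe : w ≠ e' := by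
      rintro rfl
      exact not_in_ex hw k5
    have hve : v ≠ e' := by
      rintro rfl
      exact not_in_ex hx.symm k5
    have hye : y ≠ e' := by
      rintro rfl
      exact not_in_ex ⟨hadj, v, hx.1.symm, hy.1.symm⟩ k5
    have a1 := (k w).1 hw.1
    have a2 := (k v).1 hx.1.symm
    have a3 := (k y).1 hadj
    have a4 := hy.1.ne
    grind
  intro w
  constructor
  · rintro (rfl | hw | ⟨t, ht, hw⟩)
    · simp
    · rcases (h w).1 hw.1 with rfl | rfl | rfl
      · simp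
      · simp
      · exact absurd h5 (fun h5 => not_in_ex hw h5)
    · rcases (h t).1 ht.1 with rfl | rfl | rfl
      · have := aux t y h1 h4 h6 h7 w hw
        tauto
      · have := aux t x h1.symm h4.symm h7 h6 w hw
        tauto
      · exact absurd h5 (fun h5 => not_in_ex ht h5)
  · rintro (rfl | rfl | rfl)
    · exact Or.inl rfl
    · exact Or.inr (Or.inl h6)
    · exact Or.inr (Or.inl h7)

end Pool.Agent.H7X.CF
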