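import Mathlib

namespace Pool.Agent.H7X.CF

/-- The union of two matchings is bipartite. -/
theorem two_matchings {V : Type*} [DecidableEq V] (n : ℕ) :
    ∀ (S : Finset V) (R1 R2 : V → V → Prop), S.card ≤ n →
      (∀ x ∈ S, ∀ y ∈ S, R1 x y → R1 y x) → (∀ x ∈ S, ∀ y ∈ S, R2 x y → R2 y x) →
      (∀ x ∈ S, ¬ R1 x x) → (∀ x ∈ S, ¬ R2 x x) →
      (∀ x ∈ S, ∀ y ∈ S, ∀ z ∈ S, R1 x y → R1 x z → y = z) →
      (∀ x ∈ S, ∀ y ∈ S, ∀ z ∈ S, R2 x y → R2 x z → y = z) →
      ∃ f : V → Bool, ∀ x ∈ S, ∀ y ∈ S, (R1 x y ∨ R2 x y) → f x ≠ f y := by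
  induction n with
  | zero =>
    intro S R1 R2 hS _ _ _ _ _ _
    have : S = ∅ := Finset.card_eq_zero.1 (by omega)
    subst this
    exact ⟨fun _ => true, by simp⟩
  | succ n ih =>
    intro S R1 R2 hS s1 s2 i1 i2 f1 f2
    by_cases h1 : ∃ x ∈ S, ∃ y ∈ S, R1 x y
    · obtain ⟨x, hx, y, hy, hxy⟩ := h1
      have hne : x ≠ y := fun h => i1 x hx (h ▸ hxy)
      let S' := (S.erase x).erase y
      have hS' : ∀ z, z ∈ S' ↔ z ∈ S ∧ z ≠ x ∧ z ≠ y := by
        intro z
        simp only [S', Finset.mem_erase]
        tauto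
      have hcard : S'.card ≤ n := by
        have h2 : y ∈ S.erase x := Finset.mem_erase.2 ⟨hne.symm, hy⟩
        have h3 := Finset.card_erase_of_mem h2
        have h4 := Finset.card_erase_of_mem hx
        have h5 : 0 < (S.erase x).card := Finset.card_pos.2 ⟨y, h2⟩
        simp only [S']
        omega
      let R2' : V → V → Prop := fun u v =>
        R2 u v ∨ (R2 u x ∧ R2 y v) ∨ (R2 u y ∧ R2 x v)
      obtain ⟨f, hf⟩ := ih S' R1 R2' hcard
        (fun a ha b hb h => s1 a ((hS' a).1 ha).1 b ((hS' b).1 hb).1 h)
        (by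
          intro a ha b hb h
          have ha' := ((hS' a).1 ha).1
          have hb' := ((hS' b).1 hb).1
          rcases h with h | ⟨h, h'⟩ | ⟨h, h'⟩
          · exact Or.inl (s2 _ ha' _ hb' h)
          · exact Or.inr (Or.inr ⟨s2 _ hy _ hb' h', s2 _ ha' _ hx h⟩)
          · exact Or.inr (Or.inl ⟨s2 _ hx _ hb' h', s2 _ ha' _ hy h⟩))
        (fun a ha => i1 a ((hS' a).1 ha).1)
        (by
          intro a ha h
          have ha' := ((hS' a).1 ha).1
          rcases h with h | ⟨h, h'⟩ | ⟨h, h'⟩
          · exact i2 _ ha' h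
          · exact hne (f2 a ha' x hx y hy h (s2 _ hy _ ha' h'))
          · exact hne (f2 a ha' x hx y hy (s2 _ hx _ ha' h') h))
        (fun a ha b hb c hc => f1 a ((hS' a).1 ha).1 b ((hS' b).1 hb).1 c ((hS' c).1 hc).1)
        (by
          intro a ha b hb c hc h h'
          obtain ⟨ha', hax, hay⟩ := (hS' a).1 ha
          obtain ⟨hb', hbx, hby⟩ := (hS' b).1 hb
          obtain ⟨hc', hcx, hcy⟩ := (hS' c).1 hc
          rcases h with h | ⟨h, k⟩ | ⟨h, k⟩ <;> rcases h' with h' | ⟨h', k'⟩ | ⟨h', k'⟩
          · exact f2 a ha' b hb' c hc' h h'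
          · exact absurd (f2 a ha' b hb' x hx h h') hbx
          · exact absurd (f2 a ha' b hb' y hy h h') hby
          · exact absurd (f2 a ha' c hc' x hx h' h) hcx
          · exact f2 y hy b hb' c hc' k k'
          · exact absurd (f2 a ha' x hx y hy h h') hne
          · exact absurd (f2 a ha' c hc' y hy h' h) hcy
          · exact absurd (f2 a ha' x hx y hy h' h) hne
          · exact f2 x hx b hb' c hc' k k')
      have key : ∃ b : Bool, (∀ u ∈ S', R2 x u → b ≠ f u) ∧ (∀ w ∈ S', R2 y w → b = f w) := by
        by_cases hu : ∃ u ∈ S', R2 x u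
        · obtain ⟨u, hu, hxu⟩ := hu
          refine ⟨!(f u), ?_, ?_⟩
          · intro u' hu' hxu'
            have : u = u' := f2 x hx u ((hS' u).1 hu).1 u' ((hS' u').1 hu').1 hxu hxu'
            subst this
            simp
          · intro w hw hyw
            have h := hf u hu w hw (Or.inr (Or.inr (Or.inl
              ⟨s2 _ hx _ ((hS' u).1 hu).1 hxu, hyw⟩)))
            revert h
            cases f u <;> cases f w <;> simp
        · by_cases hw : ∃ w ∈ S', R2 y w
          · obtain ⟨w, hw, hyw⟩ := hw
            refine ⟨f w, ?_, ?_⟩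
            · intro u' hu' hxu'
              exact absurd ⟨u', hu', hxu'⟩ hu
            · intro w' hw' hyw'
              rw [f2 y hy w ((hS' w).1 hw).1 w' ((hS' w').1 hw').1 hyw hyw']
          · exact ⟨true, fun u' hu' h => absurd ⟨u', hu', h⟩ hu,
              fun w' hw' h => absurd ⟨w', hw', h⟩ hw⟩
      obtain ⟨b, hb1, hb2⟩ := key
      refine ⟨fun z => if z = x then b else if z = y then !b else f z, ?_⟩
      intro u hu v hv huv
      have hR1x : ∀ z ∈ S, R1 x z → z = y := fun z hz h => f1 x hx z hz y hy h hxy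
      have hR1y : ∀ z ∈ S, R1 y z → z = x := fun z hz h => f1 y hy z hz x hx h (s1 x hx y hy hxy)
      have hstep : ∀ u ∈ S, ∀ v ∈ S, (R1 u v ∨ R2 u v) → u = x →
          (if u = x then b else if u = y then !b else f u) ≠
            (if v = x then b else if v = y then !b else f v) := by
        intro u hu v hv huv hux
        subst hux
        have hvx : v ≠ u := by
          rintro rfl
          rcases huv with h | h
          · exact i1 _ hu h
          · exact i2 _ hu h
        by_cases hvy : v = y
        · simp [hvy, hne.symm]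
        · have hvS : v ∈ S' := (hS' v).2 ⟨hv, hvx, hvy⟩
          have : R2 u v := by
            rcases huv with h | h
            · exact absurd (hR1x v hv h) hvy
            · exact h
          simp only [if_true, hvx, hvy, if_false]
          exact hb1 v hvS this
      have hstep2 : ∀ u ∈ S, ∀ v ∈ S, (R1 u v ∨ R2 u v) → u = y →
          (if u = x then b else if u = y then !b else f u) ≠
            (if v = x then b else if v = y then !b else f v) := by
        intro u hu v hv huv hux
        subst hux
        have hvx : v ≠ u := by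
          rintro rfl
          rcases huv with h | h
          · exact i1 _ hu h
          · exact i2 _ hu h
        by_cases hvy : v = x
        · simp [hvy, hne.symm]
        · have hvS : v ∈ S' := (hS' v).2 ⟨hv, hvy, hvx⟩
          have : R2 u v := by
            rcases huv with h | h
            · exact absurd (hR1y v hv h) hvy
            · exact h
          simp only [hne.symm, hvx, hvy, if_false, if_true]
          rw [← hb2 v hvS this]
          cases b <;> simp
      by_cases hux : u = x
      · exact hstep u hu v hv huv hux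
      by_cases huy : u = y
      · exact hstep2 u hu v hv huv huy
      have hvu : R1 v u ∨ R2 v u := by
        rcases huv with h | h
        · exact Or.inl (s1 _ hu _ hv h)
        · exact Or.inr (s2 _ hu _ hv h)
      by_cases hvx : v = x
      · exact (hstep v hv u hu hvu hvx).symm
      by_cases hvy : v = y
      · exact (hstep2 v hv u hu hvu hvy).symm
      simp only [hux, huy, hvx, hvy, if_false]
      apply hf u ((hS' u).2 ⟨hu, hux, huy⟩) v ((hS' v).2 ⟨hv, hvx, hvy⟩)
      rcases huv with h | h
      · exact Or.inl h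
      · exact Or.inr (Or.inl h)
    · by_cases h2 : ∃ x ∈ S, ∃ y ∈ S, R2 x y
      · obtain ⟨x, hx, y, hy, hxy⟩ := h2
        have hne : x ≠ y := fun h => i2 x hx (h ▸ hxy)
        let S' := (S.erase x).erase y
        have hS' : ∀ z, z ∈ S' ↔ z ∈ S ∧ z ≠ x ∧ z ≠ y := by
          intro z
          simp only [S', Finset.mem_erase]
          tauto
        have hcard : S'.card ≤ n := by
          have h2 : y ∈ S.erase x := Finset.mem_erase.2 ⟨hne.symm, hy⟩
          have h3 := Finset.card_erase_of_mem h2
          have h4 := Finset.card_erase_of_mem hx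
          have h5 : 0 < (S.erase x).card := Finset.card_pos.2 ⟨y, h2⟩
          simp only [S']
          omega
        obtain ⟨f, hf⟩ := ih S' R1 R2 hcard
          (fun a ha b hb h => s1 a ((hS' a).1 ha).1 b ((hS' b).1 hb).1 h)
          (fun a ha b hb h => s2 a ((hS' a).1 ha).1 b ((hS' b).1 hb).1 h)
          (fun a ha => i1 a ((hS' a).1 ha).1) (fun a ha => i2 a ((hS' a).1 ha).1)
          (fun a ha b hb c hc => f1 a ((hS' a).1 ha).1 b ((hS' b).1 hb).1 c ((hS' c).1 hc).1)
          (fun a ha b hb c hc => f2 a ((hS' a).1 ha).1 b ((hS' b).1 hb).1 c ((hS' c).1 hc).1)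
        refine ⟨fun z => if z = x then true else if z = y then false else f z, ?_⟩
        intro u hu v hv huv
        have hR : R2 u v := by
          rcases huv with h | h
          · exact absurd ⟨u, hu, v, hv, h⟩ h1
          · exact h
        have hRx : ∀ z ∈ S, R2 x z → z = y := fun z hz h => f2 x hx z hz y hy h hxy
        have hRy : ∀ z ∈ S, R2 y z → z = x := fun z hz h => f2 y hy z hz x hx h (s2 x hx y hy hxy)
        by_cases hux : u = x
        · subst hux
          have := hRx v hv hR
          subst this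
          simp [hne.symm]
        by_cases huy : u = y
        · subst huy
          have := hRy v hv hR
          subst this
          simp [hux]
        have hvx : v ≠ x := by
          rintro rfl
          exact huy (hRx u hu (s2 _ hu _ hv hR))
        have hvy : v ≠ y := by
          rintro rfl
          exact hux (hRy u hu (s2 _ hu _ hv hR))
        simp only [hux, huy, hvx, hvy, if_false]
        exact hf u ((hS' u).2 ⟨hu, hux, huy⟩) v ((hS' v).2 ⟨hv, hvx, hvy⟩) (Or.inr hR)
      · refine ⟨fun _ => true, ?_⟩
        intro x hx y hy h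
        rcases h with h | h
        · exact absurd ⟨x, hx, y, hy, h⟩ h1
        · exact absurd ⟨x, hx, y, hy, h⟩ h2

/-- To 2-colour, it is enough to 2-colour the sets in which every vertex has two neighbours. -/
theorem two_col_of_core {V : Type*} [DecidableEq V] (A : V → V → Prop)
    (hs : ∀ x y, A x y → A y x) (hi : ∀ x, ¬ A x x)
    (P : Finset V → Prop) (hP : ∀ S v, P S → P (S.erase v))
    (H : ∀ S : Finset V, P S → (∀ v ∈ S, ∃ x ∈ S, ∃ y ∈ S, x ≠ y ∧ A v x ∧ A v y) →
      ∃ f : V → Bool, ∀ x ∈ S, ∀ y ∈ S, A x y → f x ≠ f y) (n : ℕ) :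
    ∀ S : Finset V, S.card ≤ n → P S → ∃ f : V → Bool, ∀ x ∈ S, ∀ y ∈ S, A x y → f x ≠ f y := by
  induction n with
  | zero =>
    intro S hS _
    have : S = ∅ := Finset.card_eq_zero.1 (by omega)
    subst this
    exact ⟨fun _ => true, by simp⟩
  | succ n ih =>
    intro S hS hPS
    by_cases h : ∀ v ∈ S, ∃ x ∈ S, ∃ y ∈ S, x ≠ y ∧ A v x ∧ A v y
    · exact H S hPS h
    · push Not at h
      obtain ⟨v, hv, h⟩ := h
      have hcard : (S.erase v).card ≤ n := by
        have := Finset.card_erase_of_mem hv
        omega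
      obtain ⟨f, hf⟩ := ih (S.erase v) hcard (hP S v hPS)
      have key : ∃ b : Bool, ∀ x ∈ S, A v x → b ≠ f x := by
        by_cases hx : ∃ x ∈ S, A v x
        · obtain ⟨x, hx, hvx⟩ := hx
          refine ⟨!(f x), ?_⟩
          intro y hy hvy
          by_cases hxy : x = y
          · subst hxy; simp
          · exact absurd hvy (h x hx y hy hxy hvx)
        · exact ⟨true, fun x hx' hvx => absurd ⟨x, hx', hvx⟩ hx⟩
      obtain ⟨b, hb⟩ := key
      refine ⟨fun z => if z = v then b else f z, ?_⟩
      intro x hx y hy hxy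
      by_cases h1 : x = v
      · have h2 : y ≠ v := by
          rintro rfl
          subst h1
          exact hi _ hxy
        subst h1
        simp only [if_true, h2, if_false]
        exact hb y hy hxy
      · by_cases h2 : y = v
        · subst h2
          simp only [if_true, h1, if_false]
          exact (hb x hx (hs _ _ hxy)).symm
        · simp only [h1, h2, if_false]
          exact hf x (Finset.mem_erase.2 ⟨h1, hx⟩) y (Finset.mem_erase.2 ⟨h2, hy⟩) hxy

/-- Maximal independent sets exist. -/
theorem exists_maxInd {U : Type*} [DecidableEq U] (X : Finset U) (r : U → U → Prop)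
    (hs : ∀ x y, r x y → r y x) :
    ∃ J ⊆ X, (∀ x ∈ J, ∀ y ∈ J, x ≠ y → ¬ r x y) ∧ ∀ x ∈ X, x ∉ J → ∃ y ∈ J, r x y := by
  classical
  let F : Finset (Finset U) := X.powerset.filter fun J => ∀ x ∈ J, ∀ y ∈ J, x ≠ y → ¬ r x y
  have hF : F.Nonempty := ⟨∅, by simp [F]⟩
  obtain ⟨J, hJ, hmax⟩ := F.exists_max_image Finset.card hF
  simp only [F, Finset.mem_filter, Finset.mem_powerset] at hJ hmax
  refine ⟨J, hJ.1, hJ.2, ?_⟩
  intro x hx hxJ
  by_contra hcon
  push Not at hcon
  have := hmax (insert x J) ⟨Finset.insert_subset hx hJ.1, ?_⟩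
  · rw [Finset.card_insert_of_notMem hxJ] at this
    omega
  · intro a ha b hb hab
    rw [Finset.mem_insert] at ha hb
    rcases ha with rfl | ha <;> rcases hb with rfl | hb
    · exact absurd rfl hab
    · exact hcon b hb
    · exact fun h => hcon a ha (hs _ _ h)
    · exact hJ.2 a ha b hb hab

end Pool.Agent.H7X.CF
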